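import Pool.Agent.Y990.PL.Fin2
import Pool.Agent.Y840.PL.Sec
import Pool.Agent.Y840.PL.Gron

set_option autoImplicit false

open MeasureTheory Set Filter
open scoped Topology

/-!
Power laws at the critical point for site percolation on `Z^(n+1)` with arbitrarily weak long-range
bonds in one direction.

The vertices are those of `Z^(n+1) = Z x Z^n`.  Every site is open with probability `a`, all
nearest-neighbour bonds are open, and every bond of length `k ≥ 2` parallel to the first axis whose
line has all its other coordinates divisible by `m` is open with probability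
`1 - exp (-β k^(-s))`, `1 < s < 2`, all independently.
-/

namespace Pool.Agent.Results.MP_e13933_pr.CriticalPowerLaws

open Pool.Agent.W783.PC

/-- Tail of the cluster size, mean size of the intersection of a cluster with a finite set, and
continuity of the percolation probability, with explicit exponents, at the critical point of site
percolation on `Z^(n+1)` with weak long-range bonds in one direction; the critical points converge
to that of site percolation on `Z^(n+1)`. -/
theorem result (n : ℕ) (hn : 1 ≤ n) (m : ℕ) (hm : 1 ≤ m) (s : ℝ) (hs : 1 < s) (hs2 : s < 2) :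
    (∀ β : NNReal, 0 < β → 0 < acS n m s β ∧ acS n m s β < 1 ∧ ∃ C : ℝ,
      (∀ (x : V n) (N : ℕ), 1 ≤ N → (pm (prob (n := n) (acS n m s β) 1 β s m)).real
        {ω | (N : ℕ∞) ≤ (cl (EdI m) ω univ x).encard} ≤
          C * (N : ℝ) ^ (-((2 - s) / (1 + s)))) ∧
      (∀ (x : V n) (L : Finset (V n)), ∑ y ∈ L,
        (pm (prob (n := n) (acS n m s β) 1 β s m)).real
          {ω | (G (EdI m) ω univ).Reachable x y} ≤ C * (L.card : ℝ) ^ ((2 * s - 1) / 3)) ∧
      (∀ a : unitInterval, acS n m s β ≤ a → theta n a 1 β s m ≤
        C * ((a : ℝ) - acS n m s β) ^ (2 * (2 - s) / (1 + s)))) ∧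
    Tendsto (fun β : NNReal => (acS n m s β : ℝ)) (𝓝 0) (𝓝 (acZ n : ℝ)) :=
  ⟨fun _ hβ => Pool.Agent.Y990.PL.siteAll Pool.Agent.Y840.PL.secA Pool.Agent.Y840.PL.gron hn hm hs
    hs2 hβ, (site_main hn hm hs hs2).2⟩

end Pool.Agent.Results.MP_e13933_pr.CriticalPowerLaws
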