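import Pool.Agent.Y990.CB.Lgc

set_option autoImplicit false

open MeasureTheory Set Filter
open scoped Topology

/-!
Site percolation on `Z^d`, `d ≥ 2`, at the critical point: with probability bounded away from zero
no cluster contains noticeably more than the fraction `θ(p_c) / 2` of the vertices of a large box;
consequently the density of the largest cluster of the box of radius `N` converges in probability
to `θ(p_c)` if and only if `θ(p_c) = 0`.
-/

namespace Pool.Agent.Results.MP_e13933_pr.LargestClusterLLN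

noncomputable section

/-- Vertices of `Z^d`. -/
abbrev V (d : ℕ) : Type := Fin d → ℤ

/-- The box of radius `N` around the origin; it has `(2 * N + 1) ^ d` vertices. -/
def box (d N : ℕ) : Set (V d) := {x | ∀ i, |x i| ≤ N}

/-- The open subgraph inside the region `S`: two vertices at Euclidean distance one are joined if
both are open (`ω x = true`) and in `S`. -/
def openGraph {d : ℕ} (ω : V d → Bool) (S : Set (V d)) : SimpleGraph (V d) where
  Adj x y := ∑ i, |x i - y i| = 1 ∧ (x ∈ S ∧ ω x = true) ∧ (y ∈ S ∧ ω y = true)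
  symm := ⟨fun x y ⟨h1, h2, h3⟩ => ⟨by simpa only [abs_sub_comm] using h1, h3, h2⟩⟩
  loopless := ⟨fun x h => by simpa using h.1⟩

/-- The open cluster of `x` inside the region `S` (empty if `x` is closed). -/
def cluster {d : ℕ} (ω : V d → Bool) (S : Set (V d)) (x : V d) : Set (V d) :=
  {y | (ω x = true ∧ x ∈ S) ∧ (openGraph ω S).Reachable x y}

/-- Site percolation with parameter `p`: all vertices are open with probability `p`,
independently. -/
def P (d : ℕ) (p : unitInterval) : Measure (V d → Bool) :=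
  Measure.infinitePi (fun _ : V d =>
    ENNReal.ofReal (p : ℝ) • Measure.dirac true + ENNReal.ofReal (1 - (p : ℝ)) • Measure.dirac false)

/-- The percolation probability `θ_d(p)`. -/
def theta (d : ℕ) (p : unitInterval) : ℝ := (P d p).real {ω | (cluster ω univ 0).Infinite}

/-- The critical point `p_c(d)`, the supremum of the parameters with `θ_d(p) = 0`. -/
def pc (d : ℕ) : unitInterval :=
  ⟨sSup {t : ℝ | ∃ q : unitInterval, (q : ℝ) = t ∧ theta d q = 0}, by
    constructor
    · apply Real.sSup_nonneg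
      rintro x ⟨q, rfl, _⟩
      exact q.2.1
    · apply Real.sSup_le
      · rintro x ⟨q, rfl, _⟩
        exact q.2.2
      · exact zero_le_one⟩

/-- The number of vertices of the largest open cluster of the box of radius `N`. -/
def largest (d N : ℕ) (ω : V d → Bool) : ℕ :=
  sSup ((fun x => (cluster ω (box d N) x).ncard) '' box d N)

lemma nd_mem {d : ℕ} {ω : V d → Bool} {x y : V d} :
    (∀ c ∈ (Pool.Agent.Y990.CB.siteM d).nd x y, ω c = true) ↔ ω x = true ∧ ω y = true := by
  show (∀ c : V d, c ∈ ({x, y} : Finset (V d)) → ω c = true) ↔ _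
  simp only [Finset.mem_insert, Finset.mem_singleton, forall_eq_or_imp, forall_eq]

open Pool.Agent.Y990.CB in
lemma adj_iff {d : ℕ} (ω : V d → Bool) (S : Set (V d)) (x y : V d) :
    (openGraph ω S).Adj x y ↔ (G (siteM d) ω S).Adj x y := by
  show (∑ i, |x i - y i| = 1 ∧ (x ∈ S ∧ ω x = true) ∧ (y ∈ S ∧ ω y = true)) ↔
    (∑ i, |x i - y i| = 1 ∧ x ∈ S ∧ y ∈ S ∧ ∀ c ∈ (siteM d).nd x y, ω c = true)
  rw [nd_mem]
  tauto

open Pool.Agent.Y990.CB in
lemma graph_eq {d : ℕ} (ω : V d → Bool) (S : Set (V d)) :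
    openGraph ω S = G (siteM d) ω S := by
  ext x y
  exact adj_iff ω S x y

open Pool.Agent.Y990.CB in
lemma cluster_sub {d : ℕ} (ω : V d → Bool) (S : Set (V d)) (x : V d) :
    cluster ω S x ⊆ cl (siteM d) ω S x := by
  rintro y ⟨-, h⟩
  rw [graph_eq] at h
  exact h

open Pool.Agent.Y990.CB in
lemma infinite_iff {d : ℕ} (ω : V d → Bool) (x : V d) :
    (cluster ω univ x).Infinite ↔ ω ∈ Perc (siteM d) x := by
  constructor
  · intro h
    exact h.mono (cluster_sub ω univ x)
  · intro h
    have hx : ω x = true := by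
      obtain ⟨y, hy, hyx⟩ := Set.Infinite.exists_notMem_finset h {x}
      have hyx' : y ≠ x := by simpa using hyx
      have hr : (G (siteM d) ω univ).Reachable x y := hy
      obtain ⟨q⟩ := hr
      cases q with
      | nil => exact absurd rfl hyx'
      | cons hadj _ => exact (nd_mem.1 hadj.2.2.2).1
    refine Set.Infinite.mono ?_ h
    intro y hy
    refine ⟨⟨hx, mem_univ x⟩, ?_⟩
    rw [graph_eq]
    exact hy

open Pool.Agent.Y990.CB in
lemma P_eq (d : ℕ) (p : unitInterval) : P d p = mu (siteM d) p := rfl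

open Pool.Agent.Y990.CB in
lemma theta_eq (d : ℕ) (p : unitInterval) : theta d p = th (siteM d) p := by
  unfold theta th
  rw [P_eq]
  congr 1
  ext ω
  exact infinite_iff ω 0

open Pool.Agent.Y990.CB in
lemma pc_eq (d : ℕ) : pc d = Pool.Agent.Y990.CB.pc (siteM d) := by
  apply Subtype.ext
  show sSup {t : ℝ | ∃ q : unitInterval, (q : ℝ) = t ∧ theta d q = 0} =
    sSup {x : ℝ | ∃ q : unitInterval, (q : ℝ) = x ∧ th (siteM d) q = 0}
  simp only [theta_eq]

open Pool.Agent.Y990.CB in
lemma box_eq (d N : ℕ) : box d N = Bo (0 : V d) N := by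
  ext x
  simp only [box, Bo, mem_ofPred_eq, Pi.zero_apply, sub_zero]

open Pool.Agent.Y990.CB in
lemma largest_le (d N : ℕ) (ω : V d → Bool) : largest d N ω ≤ Cx (siteM d) ω N := by
  unfold largest
  apply csSup_le
  · exact ⟨_, 0, by rw [box_eq]; exact self_mem_Bo 0 N, rfl⟩
  · rintro n ⟨x, hx, rfl⟩
    rw [box_eq] at hx ⊢
    refine (Set.ncard_le_ncard (cluster_sub ω _ x)
      ((Bo_finite 0 N).subset (cl_subset hx))).trans ?_
    exact Cx_le.1 le_rfl x hx

/-- **No majority cluster at the critical point; law of large numbers.**  For every `d ≥ 2`: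

* for all `R ≥ 1` and `0 < ε ≤ 1` and all large `N`, with `P_{p_c}`-probability at least
  `ε / (10^14 R)` no open cluster of the box of radius `R N` has more than
  `(θ(p_c) / 2 + ε) (2 N + 1)^d` vertices in the box of radius `N`;
* the density of the largest open cluster of the box of radius `N` converges to `θ(p_c)` in
  `P_{p_c}`-probability if and only if `θ(p_c) = 0`. -/
theorem result (d : ℕ) (hd : 2 ≤ d) :
    (∀ (R : ℕ) (ε : ℝ), 1 ≤ R → 0 < ε → ε ≤ 1 → ∃ N0 : ℕ, ∀ N : ℕ, N0 ≤ N →
      ε / (10 ^ 14 * R) ≤ (P d (pc d)).real {ω | ∀ x : V d,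
        ((cluster ω (box d (R * N)) x ∩ box d N).ncard : ℝ) ≤
          (theta d (pc d) / 2 + ε) * (2 * N + 1) ^ d}) ∧
    ((∀ δ : ℝ, 0 < δ → Tendsto (fun N : ℕ => (P d (pc d)).real
        {ω | δ < |(largest d N ω : ℝ) / (2 * N + 1) ^ d - theta d (pc d)|}) atTop (𝓝 0)) ↔
      theta d (pc d) = 0) := by
  have hN : Pool.Agent.Y990.CB.Nd (Pool.Agent.Y990.CB.siteM d) := Pool.Agent.Y990.CB.nd_site
  have hcast : ∀ N : ℕ, ((2 : ℝ) * N + 1) ^ d = ((2 * N + 1 : ℕ) : ℝ) ^ d := fun N => by
    push_cast
    rfl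
  have part1 : ∀ (R : ℕ) (ε : ℝ), 1 ≤ R → 0 < ε → ε ≤ 1 → ∃ N0 : ℕ, ∀ N : ℕ, N0 ≤ N →
      ε / (10 ^ 14 * R) ≤ (P d (pc d)).real {ω | ∀ x : V d,
        ((cluster ω (box d (R * N)) x ∩ box d N).ncard : ℝ) ≤
          (theta d (pc d) / 2 + ε) * (2 * N + 1) ^ d} := by
    intro R ε hR hε hε1
    obtain ⟨N0, h⟩ := Pool.Agent.Y990.CB.mg hd (Pool.Agent.Y990.CB.siteM d) hN R hR ε hε hε1
    refine ⟨N0, fun N hNN => (h N hNN).trans ?_⟩
    rw [P_eq, pc_eq, theta_eq]
    refine measureReal_mono ?_ (measure_ne_top _ _)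
    intro ω hω x
    rw [hcast N]
    rcases Set.eq_empty_or_nonempty (cluster ω (box d (R * N)) x ∩ box d N) with he | ⟨y, hy, hyN⟩
    · rw [he, Set.ncard_empty]
      have h1 : 0 ≤ Pool.Agent.Y990.CB.th (Pool.Agent.Y990.CB.siteM d)
          (Pool.Agent.Y990.CB.pc (Pool.Agent.Y990.CB.siteM d)) := measureReal_nonneg
      push_cast
      positivity
    · have h2 := hω y (by rw [box_eq] at hyN; exact hyN)
      have h3 := cluster_sub ω _ x hy
      rw [box_eq] at h3
      have h4 := Pool.Agent.Y990.CB.cl_eq h3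
      refine le_trans ?_ h2
      have h5 : (cluster ω (box d (R * N)) x ∩ box d N).ncard ≤
          (Pool.Agent.Y990.CB.cl (Pool.Agent.Y990.CB.siteM d) ω
            (Pool.Agent.Y990.CB.Bo 0 (R * N)) y ∩ Pool.Agent.Y990.CB.Bo 0 N).ncard := by
        apply Set.ncard_le_ncard _ ((Pool.Agent.Y990.CB.Bo_finite 0 N).subset inter_subset_right)
        rintro u ⟨hu, huN⟩
        have h6 := cluster_sub ω _ x hu
        rw [box_eq] at h6 huN
        exact ⟨by rw [h4]; exact h6, huN⟩
      exact_mod_cast h5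
  refine ⟨part1, ?_, ?_⟩
  · intro h
    by_contra hne
    have hθ : 0 < theta d (pc d) := lt_of_le_of_ne measureReal_nonneg (Ne.symm hne)
    have hθ1 : theta d (pc d) ≤ 1 := by
      rw [theta_eq]
      exact measureReal_le_one
    set θ := theta d (pc d) with hθd
    obtain ⟨N0, hN0⟩ := part1 1 (θ / 4) le_rfl (by positivity) (by linarith)
    have h1 := (h (θ / 8) (by positivity)).eventually
      (gt_mem_nhds (show (0 : ℝ) < θ / 4 / (10 ^ 14 * (1 : ℕ)) by positivity))
    obtain ⟨N, hN⟩ := (h1.and (eventually_ge_atTop N0)).exists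
    have h2 := hN0 N hN.2
    have h3 : (P d (pc d)).real {ω | ∀ x : V d,
        ((cluster ω (box d (1 * N)) x ∩ box d N).ncard : ℝ) ≤
          (θ / 2 + θ / 4) * (2 * N + 1) ^ d} ≤
        (P d (pc d)).real {ω | θ / 8 < |(largest d N ω : ℝ) / (2 * N + 1) ^ d - θ|} := by
      rw [P_eq]
      refine measureReal_mono ?_ (measure_ne_top _ _)
      intro ω hω
      have hVpos : (0 : ℝ) < (2 * N + 1) ^ d := by positivity
      have h4 : (largest d N ω : ℝ) ≤ (θ / 2 + θ / 4) * (2 * N + 1) ^ d := by
        have h5 : largest d N ω ≤ ⌊(θ / 2 + θ / 4) * (2 * (N : ℝ) + 1) ^ d⌋₊ := by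
          apply csSup_le
          · exact ⟨_, 0, by rw [box_eq]; exact Pool.Agent.Y990.CB.self_mem_Bo 0 N, rfl⟩
          · rintro n ⟨x, hx, rfl⟩
            apply Nat.le_floor
            have h6 := hω x
            rw [one_mul] at h6
            refine le_trans ?_ h6
            have h7 : (cluster ω (box d N) x).ncard ≤ (cluster ω (box d N) x ∩ box d N).ncard := by
              apply Set.ncard_le_ncard
              · intro u hu
                refine ⟨hu, ?_⟩
                have h8 := cluster_sub ω _ x hu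
                rw [box_eq] at h8 hx ⊢
                exact Pool.Agent.Y990.CB.cl_subset hx h8
              · rw [box_eq]
                exact (Pool.Agent.Y990.CB.Bo_finite 0 N).subset inter_subset_right
            exact_mod_cast h7
        exact (Nat.cast_le.2 h5).trans (Nat.floor_le (by positivity))
      show θ / 8 < |(largest d N ω : ℝ) / (2 * N + 1) ^ d - θ|
      rw [abs_sub_comm]
      refine lt_of_lt_of_le ?_ (le_abs_self _)
      have h9 : (largest d N ω : ℝ) / (2 * N + 1) ^ d ≤ θ / 2 + θ / 4 := by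
        rw [div_le_iff₀ hVpos]
        exact h4
      linarith
    linarith [hN.1]
  · intro h δ hδ
    have h1 := Pool.Agent.Y990.CB.lgn_zero (by omega : 1 ≤ d) (Pool.Agent.Y990.CB.siteM d)
      (Pool.Agent.Y990.CB.pc (Pool.Agent.Y990.CB.siteM d)) (by rw [← theta_eq, ← pc_eq]; exact h) δ hδ
    refine tendsto_of_tendsto_of_tendsto_of_le_of_le tendsto_const_nhds h1
      (fun N => measureReal_nonneg) (fun N => ?_)
    rw [P_eq, pc_eq]
    refine measureReal_mono ?_ (measure_ne_top _ _)
    intro ω hω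
    have h2 : δ < |(largest d N ω : ℝ) / (2 * N + 1) ^ d - theta d (pc d)| := by
      rw [pc_eq]; exact hω
    rw [h, sub_zero, abs_of_nonneg (by positivity)] at h2
    show δ < |(Pool.Agent.Y990.CB.Cx (Pool.Agent.Y990.CB.siteM d) ω N : ℝ) /
      ((2 * N + 1 : ℕ) : ℝ) ^ d - 0|
    rw [sub_zero, abs_of_nonneg (by positivity), ← hcast N]
    refine lt_of_lt_of_le h2 ?_
    apply div_le_div_of_nonneg_right _ (by positivity)
    exact_mod_cast largest_le d N ω

end

end Pool.Agent.Results.MP_e13933_pr.LargestClusterLLN
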