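import Pool.Agent.Y990.SH.Main2

set_option autoImplicit false

open MeasureTheory Set Filter
open scoped Topology

/-!
Site percolation on `Z^d`, `d ≥ 2`, at the critical point: there is no giant cluster in boxes.  For
every `ε > 0`, at all scales up to a bounded factor, with probability bounded away from zero all
open clusters of the box contain less than the fraction `ε` of its vertices.
-/

namespace Pool.Agent.Results.MP_e13933_pr.NoGiantCluster

noncomputable section

/-- Vertices of `Z^d`. -/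
abbrev V (d : ℕ) : Type := Fin d → ℤ

/-- The box of radius `N` around the origin; it has `(2 * N + 1) ^ d` vertices. -/
def box (d N : ℕ) : Set (V d) := {x | ∀ i, |x i| ≤ N}

/-- The open subgraph inside the region `S`: two vertices at Euclidean distance one are joined if
both are open (`ω x = true`) and in `S`. -/
def openGraph {d : ℕ} (ω : V d → Bool) (S : Set (V d)) : SimpleGraph (V d) where
  Adj x y := ∑ i, |x i - y i| = 1 ∧ (x ∈ S ∧ ω x = true) ∧ (y ∈ S ∧ ω y = true)
  symm := ⟨fun x y ⟨h1, h2, h3⟩ => ⟨by simpa only [abs_sub_comm] using h1, h3, h2⟩⟩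
  loopless := ⟨fun x h => by simpa using h.1⟩

/-- The open cluster of `x` inside the region `S` (empty if `x` is closed). -/
def cluster {d : ℕ} (ω : V d → Bool) (S : Set (V d)) (x : V d) : Set (V d) :=
  {y | (ω x = true ∧ x ∈ S) ∧ (openGraph ω S).Reachable x y}

/-- Site percolation with parameter `p`: all vertices are open with probability `p`,
independently. -/
def P (d : ℕ) (p : unitInterval) : Measure (V d → Bool) :=
  Measure.infinitePi (fun _ : V d =>
    ENNReal.ofReal (p : ℝ) • Measure.dirac true + ENNReal.ofReal (1 - (p : ℝ)) • Measure.dirac false)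

/-- The percolation probability `θ_d(p)`. -/
def theta (d : ℕ) (p : unitInterval) : ℝ := (P d p).real {ω | (cluster ω univ 0).Infinite}

/-- The critical point `p_c(d)`, the supremum of the parameters with `θ_d(p) = 0`. -/
def pc (d : ℕ) : unitInterval :=
  ⟨sSup {t : ℝ | ∃ q : unitInterval, (q : ℝ) = t ∧ theta d q = 0}, by
    constructor
    · apply Real.sSup_nonneg
      rintro x ⟨q, rfl, _⟩
      exact q.2.1
    · apply Real.sSup_le
      · rintro x ⟨q, rfl, _⟩
        exact q.2.2
      · exact zero_le_one⟩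

/-- The number of vertices of the largest open cluster of the box of radius `N`. -/
def largest (d N : ℕ) (ω : V d → Bool) : ℕ :=
  sSup ((fun x => (cluster ω (box d N) x).ncard) '' box d N)

lemma nd_mem {d : ℕ} {ω : V d → Bool} {x y : V d} :
    (∀ c ∈ (Pool.Agent.Y990.CB.siteM d).nd x y, ω c = true) ↔ ω x = true ∧ ω y = true := by
  show (∀ c : V d, c ∈ ({x, y} : Finset (V d)) → ω c = true) ↔ _
  simp only [Finset.mem_insert, Finset.mem_singleton, forall_eq_or_imp, forall_eq]

open Pool.Agent.Y990.CB in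
lemma adj_iff {d : ℕ} (ω : V d → Bool) (S : Set (V d)) (x y : V d) :
    (openGraph ω S).Adj x y ↔ (G (siteM d) ω S).Adj x y := by
  show (∑ i, |x i - y i| = 1 ∧ (x ∈ S ∧ ω x = true) ∧ (y ∈ S ∧ ω y = true)) ↔
    (∑ i, |x i - y i| = 1 ∧ x ∈ S ∧ y ∈ S ∧ ∀ c ∈ (siteM d).nd x y, ω c = true)
  rw [nd_mem]
  tauto

open Pool.Agent.Y990.CB in
lemma graph_eq {d : ℕ} (ω : V d → Bool) (S : Set (V d)) :
    openGraph ω S = G (siteM d) ω S := by
  ext x y
  exact adj_iff ω S x y

open Pool.Agent.Y990.CB in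
lemma cluster_sub {d : ℕ} (ω : V d → Bool) (S : Set (V d)) (x : V d) :
    cluster ω S x ⊆ cl (siteM d) ω S x := by
  rintro y ⟨-, h⟩
  rw [graph_eq] at h
  exact h

open Pool.Agent.Y990.CB in
lemma infinite_iff {d : ℕ} (ω : V d → Bool) (x : V d) :
    (cluster ω univ x).Infinite ↔ ω ∈ Perc (siteM d) x := by
  constructor
  · intro h
    exact h.mono (cluster_sub ω univ x)
  · intro h
    have hx : ω x = true := by
      obtain ⟨y, hy, hyx⟩ := Set.Infinite.exists_notMem_finset h {x}
      have hyx' : y ≠ x := by simpa using hyx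
      have hr : (G (siteM d) ω univ).Reachable x y := hy
      obtain ⟨q⟩ := hr
      cases q with
      | nil => exact absurd rfl hyx'
      | cons hadj _ => exact (nd_mem.1 hadj.2.2.2).1
    refine Set.Infinite.mono ?_ h
    intro y hy
    refine ⟨⟨hx, mem_univ x⟩, ?_⟩
    rw [graph_eq]
    exact hy

open Pool.Agent.Y990.CB in
lemma P_eq (d : ℕ) (p : unitInterval) : P d p = mu (siteM d) p := rfl

open Pool.Agent.Y990.CB in
lemma theta_eq (d : ℕ) (p : unitInterval) : theta d p = th (siteM d) p := by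
  unfold theta th
  rw [P_eq]
  congr 1
  ext ω
  exact infinite_iff ω 0

open Pool.Agent.Y990.CB in
lemma pc_eq (d : ℕ) : pc d = Pool.Agent.Y990.CB.pc (siteM d) := by
  apply Subtype.ext
  show sSup {t : ℝ | ∃ q : unitInterval, (q : ℝ) = t ∧ theta d q = 0} =
    sSup {x : ℝ | ∃ q : unitInterval, (q : ℝ) = x ∧ th (siteM d) q = 0}
  simp only [theta_eq]

open Pool.Agent.Y990.CB in
lemma box_eq (d N : ℕ) : box d N = Bo (0 : V d) N := by
  ext x
  simp only [box, Bo, mem_ofPred_eq, Pi.zero_apply, sub_zero]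

open Pool.Agent.Y990.CB in
lemma largest_attained (d N : ℕ) (ω : V d → Bool) :
    ∃ x ∈ box d N, (cluster ω (box d N) x).ncard = largest d N ω := by
  have hne : ((fun x => (cluster ω (box d N) x).ncard) '' box d N).Nonempty :=
    ⟨_, 0, by rw [box_eq]; exact self_mem_Bo 0 N, rfl⟩
  have hb : BddAbove ((fun x => (cluster ω (box d N) x).ncard) '' box d N) := by
    refine ⟨(Bo (0 : V d) N).ncard, ?_⟩
    rintro n ⟨x, hx, rfl⟩
    rw [box_eq] at hx ⊢
    exact Set.ncard_le_ncard ((cluster_sub ω _ x).trans (cl_subset hx)) (Bo_finite 0 N)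
  obtain ⟨x, hx, h⟩ := Nat.sSup_mem hne hb
  exact ⟨x, hx, h⟩

open Pool.Agent.Y990.CB in
/-- A giant cluster gives the event of the library. -/
lemma giant_sub (d N : ℕ) (a : ℝ) (ω : V d → Bool) (h : a ≤ (largest d N ω : ℝ)) :
    ω ∈ Pool.Agent.Y990.SH.Gi (siteM d) N a := by
  obtain ⟨x, hx, hxe⟩ := largest_attained d N ω
  rw [box_eq] at hx hxe
  refine ⟨x, hx, h.trans ?_⟩
  rw [← hxe]
  have h5 := Set.ncard_le_ncard (cluster_sub ω (Bo 0 N) x) ((Bo_finite 0 N).subset (cl_subset hx))
  exact_mod_cast h5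

/-- **No giant cluster at the critical point.**  For every `d ≥ 2` and `ε > 0`:

* for every `R ≥ 1` there are `C` and `c > 0` such that for every `N ≥ 1` there is `N'` with
  `N ≤ N' ≤ C N` such that with `P_{p_c}`-probability at least `c` the largest open cluster of the
  box of radius `R N'` has less than `ε (2 N' + 1)^d` vertices;
* in particular the `P_{p_c}`-probability that the largest open cluster of the box of radius `N`
  has at least `ε (2 N + 1)^d` vertices does not tend to one as `N → ∞`. -/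
theorem result (d : ℕ) (hd : 2 ≤ d) (ε : ℝ) (hε : 0 < ε) :
    (∀ R : ℕ, 1 ≤ R → ∃ (C : ℕ) (c : ℝ), 0 < c ∧ ∀ N : ℕ, 1 ≤ N → ∃ N' : ℕ, N ≤ N' ∧ N' ≤ C * N ∧
      c ≤ (P d (pc d)).real {ω | (largest d (R * N') ω : ℝ) < ε * (2 * N' + 1) ^ d}) ∧
    ¬ Tendsto (fun N : ℕ => (P d (pc d)).real
      {ω | ε * (2 * N + 1) ^ d ≤ (largest d N ω : ℝ)}) atTop (𝓝 1) := by
  have hN : Pool.Agent.Y990.CB.Nd (Pool.Agent.Y990.CB.siteM d) := Pool.Agent.Y990.CB.nd_site
  have hcast : ∀ N : ℕ, ((2 : ℝ) * N + 1) ^ d = ((2 * N + 1 : ℕ) : ℝ) ^ d := fun N => by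
    push_cast
    rfl
  rw [pc_eq]
  constructor
  · intro R hR
    obtain ⟨C, c, hc, h⟩ := Pool.Agent.Y990.SH.nogiantR hd (Pool.Agent.Y990.CB.siteM d) hN
      (Pool.Agent.Y990.SH.fu_site d) ε hε R hR
    refine ⟨C, c, hc, fun N hN1 => ?_⟩
    obtain ⟨N', h1, h2, h3⟩ := h N hN1
    refine ⟨N', h1, h2, h3.trans ?_⟩
    rw [P_eq]
    refine measureReal_mono ?_ (measure_ne_top _ _)
    intro ω hω
    by_contra hcon
    exact hω (giant_sub d (R * N') _ ω (by rw [← hcast]; exact not_lt.1 hcon))
  · have h := Pool.Agent.Y990.SH.nogiantT hd (Pool.Agent.Y990.CB.siteM d) hN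
      (Pool.Agent.Y990.SH.fu_site d) ε hε
      (fun N => {ω | ε * (2 * N + 1) ^ d ≤ (largest d N ω : ℝ)})
      (fun N ω hω => giant_sub d N _ ω (by rw [← hcast]; exact hω))
    simp only [P_eq]
    exact h

end

end Pool.Agent.Results.MP_e13933_pr.NoGiantCluster
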