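import Pool.Agent.Y990.OA.Main6

set_option autoImplicit false

open MeasureTheory Set

/-!
Site percolation on `Z^d`, `d ≥ 3`, at the critical point: holes of polynomial size.  The box of
radius `k` is not connected to the boundary of the box of radius `n ≥ (k + 2) ^ A` with probability
at least `c n ^ (1 / A) / n`, and two distinct crossing clusters are much less likely than no
crossing cluster.  The cluster of the origin is finite and has radius at least `k` with probability
at least `c / (k + 2) ^ A`.  Almost surely every large box contains holes of polynomial size.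
-/

namespace Pool.Agent.Results.MP_e13933_pr.PolynomialHoles

noncomputable section

/-- Vertices of `Z^d`. -/
abbrev V (d : ℕ) : Type := Fin d → ℤ

/-- The box of radius `N` around the origin. -/
def box (d N : ℕ) : Set (V d) := {x | ∀ i, |x i| ≤ N}

/-- The boundary of the box of radius `N`: the vertices with sup norm `N`. -/
def sphere (d N : ℕ) : Set (V d) := {x | x ∈ box d N ∧ ∃ i, |x i| = N}

/-- The open subgraph inside the region `S`: two vertices at Euclidean distance one are joined if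
both are open (`ω x = true`) and in `S`. -/
def openGraph {d : ℕ} (ω : V d → Bool) (S : Set (V d)) : SimpleGraph (V d) where
  Adj x y := ∑ i, |x i - y i| = 1 ∧ (x ∈ S ∧ ω x = true) ∧ (y ∈ S ∧ ω y = true)
  symm := ⟨fun x y ⟨h1, h2, h3⟩ => ⟨by simpa only [abs_sub_comm] using h1, h3, h2⟩⟩
  loopless := ⟨fun x h => by simpa using h.1⟩

/-- The open cluster of `x` inside the region `S` (empty if `x` is closed). -/
def cluster {d : ℕ} (ω : V d → Bool) (S : Set (V d)) (x : V d) : Set (V d) :=
  {y | (ω x = true ∧ x ∈ S) ∧ (openGraph ω S).Reachable x y}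

/-- Site percolation with parameter `p`: all vertices are open with probability `p`,
independently. -/
def P (d : ℕ) (p : unitInterval) : Measure (V d → Bool) :=
  Measure.infinitePi (fun _ : V d =>
    ENNReal.ofReal (p : ℝ) • Measure.dirac true + ENNReal.ofReal (1 - (p : ℝ)) • Measure.dirac false)

/-- The percolation probability `θ_d(p)`. -/
def theta (d : ℕ) (p : unitInterval) : ℝ := (P d p).real {ω | (cluster ω univ 0).Infinite}

/-- The critical point `p_c(d)`, the supremum of the parameters with `θ_d(p) = 0`. -/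
def pc (d : ℕ) : unitInterval :=
  ⟨sSup {t : ℝ | ∃ q : unitInterval, (q : ℝ) = t ∧ theta d q = 0}, by
    constructor
    · apply Real.sSup_nonneg
      rintro x ⟨q, rfl, _⟩
      exact q.2.1
    · apply Real.sSup_le
      · rintro x ⟨q, rfl, _⟩
        exact q.2.2
      · exact zero_le_one⟩

/-- The crossing clusters: the open clusters of the box of radius `n` which meet both the box of
radius `k` and the boundary of the box of radius `n`. -/
def crossing (d k n : ℕ) (ω : V d → Bool) : Set (Set (V d)) :=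
  {C | ∃ x ∈ box d k, C = cluster ω (box d n) x ∧ (C ∩ sphere d n).Nonempty}

lemma nd_mem {d : ℕ} {ω : V d → Bool} {x y : V d} :
    (∀ c ∈ (Pool.Agent.Y990.CB.siteM d).nd x y, ω c = true) ↔ ω x = true ∧ ω y = true := by
  show (∀ c : V d, c ∈ ({x, y} : Finset (V d)) → ω c = true) ↔ _
  simp only [Finset.mem_insert, Finset.mem_singleton, forall_eq_or_imp, forall_eq]

open Pool.Agent.Y990.CB in
lemma adj_iff {d : ℕ} (ω : V d → Bool) (S : Set (V d)) (x y : V d) :
    (openGraph ω S).Adj x y ↔ (G (siteM d) ω S).Adj x y := by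
  show (∑ i, |x i - y i| = 1 ∧ (x ∈ S ∧ ω x = true) ∧ (y ∈ S ∧ ω y = true)) ↔
    (∑ i, |x i - y i| = 1 ∧ x ∈ S ∧ y ∈ S ∧ ∀ c ∈ (siteM d).nd x y, ω c = true)
  rw [nd_mem]
  tauto

open Pool.Agent.Y990.CB in
lemma graph_eq {d : ℕ} (ω : V d → Bool) (S : Set (V d)) :
    openGraph ω S = G (siteM d) ω S := by
  ext x y
  exact adj_iff ω S x y

open Pool.Agent.Y990.CB in
lemma cluster_sub {d : ℕ} (ω : V d → Bool) (S : Set (V d)) (x : V d) :
    cluster ω S x ⊆ cl (siteM d) ω S x := by
  rintro y ⟨-, h⟩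
  rw [graph_eq] at h
  exact h

open Pool.Agent.Y990.CB in
/-- A vertex connected to a different vertex is open. -/
lemma open_of {d : ℕ} {ω : V d → Bool} {S : Set (V d)} {x y : V d} (hxy : y ≠ x)
    (hr : (G (siteM d) ω S).Reachable x y) : ω x = true ∧ x ∈ S := by
  obtain ⟨q⟩ := hr
  cases q with
  | nil => exact absurd rfl hxy
  | cons hadj _ => exact ⟨(nd_mem.1 hadj.2.2.2).1, hadj.2.1⟩

open Pool.Agent.Y990.CB in
lemma infinite_iff {d : ℕ} (ω : V d → Bool) (x : V d) :
    (cluster ω univ x).Infinite ↔ ω ∈ Perc (siteM d) x := by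
  constructor
  · intro h
    exact h.mono (cluster_sub ω univ x)
  · intro h
    obtain ⟨y, hy, hyx⟩ := Set.Infinite.exists_notMem_finset h {x}
    have hyx' : y ≠ x := by simpa using hyx
    have hx := open_of hyx' hy
    refine Set.Infinite.mono ?_ h
    intro z hz
    refine ⟨hx, ?_⟩
    rw [graph_eq]
    exact hz

open Pool.Agent.Y990.CB in
lemma P_eq (d : ℕ) (p : unitInterval) : P d p = mu (siteM d) p := rfl

open Pool.Agent.Y990.CB in
lemma theta_eq (d : ℕ) (p : unitInterval) : theta d p = th (siteM d) p := by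
  unfold theta th
  rw [P_eq]
  congr 1
  ext ω
  exact infinite_iff ω 0

open Pool.Agent.Y990.CB in
lemma pc_eq (d : ℕ) : pc d = Pool.Agent.Y990.CB.pc (siteM d) := by
  apply Subtype.ext
  show sSup {t : ℝ | ∃ q : unitInterval, (q : ℝ) = t ∧ theta d q = 0} =
    sSup {x : ℝ | ∃ q : unitInterval, (q : ℝ) = x ∧ th (siteM d) q = 0}
  simp only [theta_eq]

open Pool.Agent.Y990.CB in
lemma box_eq (d N : ℕ) : box d N = Bo (0 : V d) N := by
  ext x
  simp only [box, Bo, mem_ofPred_eq, Pi.zero_apply, sub_zero]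

open Pool.Agent.Y990.CB in
lemma sphere_eq (d N : ℕ) : sphere d N = Fr (0 : V d) N := by
  ext x
  simp only [sphere, Fr, box_eq, mem_ofPred_eq, Pi.zero_apply, sub_zero]

open Pool.Agent.Y990.CB in
/-- Vertices of the small box are not on the boundary of the large box. -/
lemma ne_of_box {d k n : ℕ} (h : k < n) {x y : V d} (hx : x ∈ Bo (0 : V d) k)
    (hy : y ∈ Fr (0 : V d) n) : y ≠ x := by
  rintro rfl
  obtain ⟨i, hi⟩ := hy.2
  have h1 := hx i
  rw [hi] at h1
  have : n ≤ k := by exact_mod_cast h1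
  omega

open Pool.Agent.Y990.CB in
/-- The crossing clusters in the terms of the library. -/
lemma cross_of {d k n : ℕ} (h : k < n) (ω : V d → Bool) {x : V d} (hx : x ∈ Bo (0 : V d) k)
    (ha : Am (siteM d) ω 0 n x) : cluster ω (box d n) x ∈ crossing d k n ω ∧
      cluster ω (box d n) x = cl (siteM d) ω (Bo 0 n) x := by
  obtain ⟨x', hx', hr⟩ := ha
  have ho := open_of (ne_of_box h hx hx') hr
  have e : cluster ω (box d n) x = cl (siteM d) ω (Bo 0 n) x := by
    refine Subset.antisymm ?_ ?_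
    · rw [box_eq]
      exact cluster_sub ω _ x
    · intro y hy
      refine ⟨?_, ?_⟩
      · rw [box_eq]; exact ho
      · rw [graph_eq, box_eq]; exact hy
  refine ⟨⟨x, by rw [box_eq]; exact hx, rfl, x', ?_, ?_⟩, e⟩
  · rw [e]; exact hr
  · rw [sphere_eq]; exact hx'

open Pool.Agent.Y990.CB in
lemma cross_empty {d k n : ℕ} (h : k < n) (ω : V d → Bool) :
    crossing d k n ω = ∅ ↔ ω ∉ Lk (siteM d) (Bo 0 n) (Bo 0 k) (Fr 0 n) := by
  constructor
  · rintro he ⟨x, hx, y, hy, hr⟩
    have := (cross_of h ω hx ⟨y, hy, hr⟩).1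
    rw [he] at this
    exact this
  · intro hn
    rw [Set.eq_empty_iff_forall_notMem]
    rintro C ⟨x, hx, rfl, y, hy, hs⟩
    refine hn ⟨x, by rw [← box_eq]; exact hx, y, by rw [← sphere_eq]; exact hs, ?_⟩
    have := cluster_sub ω _ x hy
    rw [box_eq] at this
    exact this

open Pool.Agent.Y990.CB in
lemma cross_two {d k n : ℕ} (ω : V d → Bool)
    (h2 : 2 ≤ (crossing d k n ω).encard) : ω ∈ Ta (siteM d) 0 k n := by
  have h1 : 1 < (crossing d k n ω).encard := lt_of_lt_of_le (by norm_num) h2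
  obtain ⟨C, C', hC, hC', hne⟩ := Set.one_lt_encard_iff.1 h1
  obtain ⟨x, hx, rfl, y, hy, hs⟩ := hC
  obtain ⟨x', hx', rfl, y', hy', hs'⟩ := hC'
  rw [box_eq] at hx hx'
  rw [sphere_eq] at hs hs'
  have g := cluster_sub ω _ x hy
  have g' := cluster_sub ω _ x' hy'
  rw [box_eq] at g g'
  refine ⟨x, hx, x', hx', ⟨y, hs, g⟩, ⟨y', hs', g'⟩, ?_⟩
  intro hr
  apply hne
  obtain ⟨⟨o1, o2⟩, -⟩ := hy
  obtain ⟨⟨o1', o2'⟩, -⟩ := hy'
  have hr' : (openGraph ω (box d n)).Reachable x x' := by
    rw [graph_eq, box_eq]; exact hr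
  ext z
  exact ⟨fun hz => ⟨⟨o1', o2'⟩, hr'.symm.trans hz.2⟩, fun hz => ⟨⟨o1, o2⟩, hr'.trans hz.2⟩⟩

open Pool.Agent.Y990.CB in
lemma finite_of_empty {d k n : ℕ} (h : k < n) (ω : V d → Bool) (he : crossing d k n ω = ∅)
    (x : V d) (hx : x ∈ box d k) : (cluster ω univ x).Finite := by
  by_contra hinf
  rw [box_eq] at hx
  have h1 : ω ∈ Perc (siteM d) x := (infinite_iff ω x).1 hinf
  have h2 : ∃ y ∈ cl (siteM d) ω univ x, y ∉ Bo (0 : V d) n := by
    by_contra hc
    push Not at hc
    exact h1 ((Bo_finite 0 n).subset hc)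
  obtain ⟨y, hy, hyn⟩ := h2
  have ha : Am (siteM d) ω 0 n x := exit_Am (Bo_mono 0 h.le hx) (Or.inl hyn) hy
  have := (cross_of h ω hx ha).1
  rw [he] at this
  exact this

open Pool.Agent.Y990.CB in
lemma tail_of {d k : ℕ} (hk : 1 ≤ k) (ω : V d → Bool) (x : V d) (hx : x ∈ Fr (0 : V d) k)
    (hfin : (cl (siteM d) ω univ 0).Finite) (hxc : x ∈ cl (siteM d) ω univ 0) :
    (cluster ω univ 0).Finite ∧ (cluster ω univ 0 ∩ sphere d k).Nonempty := by
  refine ⟨hfin.subset (cluster_sub ω univ 0), x, ⟨?_, ?_⟩, ?_⟩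
  · exact open_of (ne_of_box (k := 0) (by omega) (self_mem_Bo 0 0) hx) hxc
  · rw [graph_eq]; exact hxc
  · rw [sphere_eq]; exact hx

open Pool.Agent.Y990.CB in
/-- The probabilities of no and of some crossing cluster. -/
lemma P_cross {d k n : ℕ} (h : k < n) (p : unitInterval) :
    (P d p).real {ω | crossing d k n ω = ∅} = Pool.Agent.Y990.OA.hol (siteM d) p k n ∧
    (P d p).real {ω | (crossing d k n ω).Nonempty} =
      1 - Pool.Agent.Y990.OA.hol (siteM d) p k n := by
  have e1 : {ω | crossing d k n ω = ∅} = {ω | ω ∉ Lk (siteM d) (Bo 0 n) (Bo 0 k) (Fr 0 n)} := by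
    ext ω
    exact cross_empty h ω
  have e2 : {ω | (crossing d k n ω).Nonempty} = Lk (siteM d) (Bo 0 n) (Bo 0 k) (Fr 0 n) := by
    ext ω
    constructor
    · intro hne
      by_contra hL
      exact Set.Nonempty.ne_empty hne ((cross_empty h ω).2 hL)
    · intro hL
      by_contra hne
      exact (cross_empty h ω).1 (Set.not_nonempty_iff_eq_empty.1 hne) hL
  have e5 : ∀ a b : ℝ, b = 1 - a → a = 1 - b := fun a b h => by linarith
  rw [e1, e2, P_eq]
  exact ⟨rfl, e5 _ _ (probReal_compl_eq_one_sub (Lk_meas (siteM d) (Bo 0 n) (Bo 0 k) (Fr 0 n)))⟩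

open Pool.Agent.Y990.CB in
/-- Membership in translated boxes. -/
lemma sub_mem {d n : ℕ} {x z : V d} : x - z ∈ box d n ↔ x ∈ Bo z n := by
  simp only [box, Bo, mem_ofPred_eq, Pi.sub_apply]

/-- **Holes of polynomial size at the critical point.**  For every `d ≥ 3` there are `A ≥ 1`,
`c > 0` and `C` such that:

* for all `k` and `n ≥ (k + 2) ^ A` and all `p ≤ p_c` the `P_p`-probability that no open cluster of
  the box of radius `n` meets both the box of radius `k` and the boundary of the box of radius `n`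
  is at least `c n ^ (1 / A) / n`.  So if the `P_p`-probability of a crossing cluster is larger than
  `1 - c n ^ (1 / A) / n` for one such pair `k`, `n`, then `p > p_c`;
* for all `k` and `n ≥ (k + 2) ^ A`, all `p ≥ p_c` and all `s` in `[0, 1]` the `P_p`-probability of
  at least two crossing clusters is at most `4 n ^ (- (1 - s) / 50)` times the power `2 s` of the
  probability of a crossing cluster times the sum of `1 / n` and the probability of no crossing
  cluster; for `p = p_c` the summand `1 / n` is not needed (with a constant `C` in place of `4`);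
* for all `k` the `P_{p_c}`-probability that no vertex of the box of radius `k` is in an infinite
  cluster is at least `c / (k + 2) ^ A`;
* for all `k ≥ 1` the `P_{p_c}`-probability that the cluster of the origin is finite and meets the
  boundary of the box of radius `k` is at least `c / (k + 2) ^ A`;
* `P_{p_c}`-almost surely, for all large `n` and all `k` with `(k + 2) ^ A ≤ n` there is a vertex
  `z` of the box of radius `n` such that all clusters meeting the box of radius `k` around `z` are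
  contained in the box of radius `n` around `z`. -/
theorem result (d : ℕ) (hd : 3 ≤ d) : ∃ (A : ℕ) (c C : ℝ), 1 ≤ A ∧ 0 < c ∧
    (∀ k n : ℕ, (k + 2) ^ A ≤ n →
      (∀ p : unitInterval, p ≤ pc d →
        c * (n : ℝ) ^ (1 / A : ℝ) / n ≤ (P d p).real {ω | crossing d k n ω = ∅}) ∧
      (∀ p : unitInterval, pc d ≤ p → ∀ s : ℝ, 0 ≤ s → s ≤ 1 →
        (P d p).real {ω | 2 ≤ (crossing d k n ω).encard} ≤
          4 * (n : ℝ) ^ (-((1 - s) / 50)) *
            (P d p).real {ω | (crossing d k n ω).Nonempty} ^ (2 * s) *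
            (1 / n + (P d p).real {ω | crossing d k n ω = ∅})) ∧
      ∀ s : ℝ, 0 ≤ s → s ≤ 1 →
        (P d (pc d)).real {ω | 2 ≤ (crossing d k n ω).encard} ≤
          C * (n : ℝ) ^ (-((1 - s) / 50)) *
            (P d (pc d)).real {ω | (crossing d k n ω).Nonempty} ^ (2 * s) *
            (P d (pc d)).real {ω | crossing d k n ω = ∅}) ∧
    (∀ k : ℕ, c / ((k : ℝ) + 2) ^ A ≤
      (P d (pc d)).real {ω | ∀ x ∈ box d k, (cluster ω univ x).Finite}) ∧
    (∀ k : ℕ, 1 ≤ k → c / ((k : ℝ) + 2) ^ A ≤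
      (P d (pc d)).real {ω | (cluster ω univ 0).Finite ∧
        (cluster ω univ 0 ∩ sphere d k).Nonempty}) ∧
    ∀ᵐ ω ∂(P d (pc d)), ∃ n0 : ℕ, ∀ n : ℕ, n0 ≤ n → ∀ k : ℕ, (k + 2) ^ A ≤ n →
      ∃ z ∈ box d n, ∀ x : V d, x - z ∈ box d k → ∀ y ∈ cluster ω univ x, y - z ∈ box d n := by
  have hN : Pool.Agent.Y990.CB.Nd (Pool.Agent.Y990.CB.siteM d) := Pool.Agent.Y990.CB.nd_site
  have hQ : Pool.Agent.Y990.CB.Qm (Pool.Agent.Y990.CB.siteM d) := Pool.Agent.Y448.CB2.qm_site d
  obtain ⟨A, c, C, hA1, hc, hC, h, h4, h5⟩ :=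
    Pool.Agent.Y990.OA.main6 hd (Pool.Agent.Y990.CB.siteM d) hN hQ
  have hev : ∀ k n : ℕ, (k + 2) ^ A ≤ n → k < n := by
    intro k n hn
    have h3 : k + 2 ≤ (k + 2) ^ A := by
      calc k + 2 = (k + 2) ^ 1 := (pow_one _).symm
        _ ≤ (k + 2) ^ A := Nat.pow_le_pow_right (by omega) hA1
    omega
  have main1 : ∀ k n : ℕ, (k + 2) ^ A ≤ n → ∀ p : unitInterval, p ≤ pc d →
      c * (n : ℝ) ^ (1 / A : ℝ) / n ≤ (P d p).real {ω | crossing d k n ω = ∅} := by
    intro k n hn p hp
    rw [(P_cross (hev k n hn) p).1]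
    exact (h k n hn).1 p (by rw [← pc_eq]; exact hp)
  refine ⟨A, c, C, hA1, hc, ?_, ?_, ?_, ?_⟩
  · intro k n hn
    have hkn := hev k n hn
    have hcr : ∀ p : unitInterval, (P d p).real {ω | 2 ≤ (crossing d k n ω).encard} ≤
        (Pool.Agent.Y990.CB.mu (Pool.Agent.Y990.CB.siteM d) p).real
          (Pool.Agent.Y990.CB.Ta (Pool.Agent.Y990.CB.siteM d) 0 k n) := by
      intro p
      rw [P_eq]
      exact measureReal_mono (fun ω hω => cross_two ω hω) (measure_ne_top _ _)
    refine ⟨main1 k n hn, ?_, ?_⟩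
    · intro p hp s hs hs1
      rw [(P_cross hkn p).1, (P_cross hkn p).2, one_div (n : ℝ)]
      exact (hcr p).trans ((h k n hn).2.1 p (by rw [← pc_eq]; exact hp) s hs hs1)
    · intro s hs hs1
      refine (hcr (pc d)).trans ?_
      rw [(P_cross hkn (pc d)).1, (P_cross hkn (pc d)).2, pc_eq]
      exact (h k n hn).2.2 s hs hs1
  · intro k
    have hkn := hev k ((k + 2) ^ A) le_rfl
    have h1 := main1 k ((k + 2) ^ A) le_rfl (pc d) le_rfl
    have h2 : c / ((k : ℝ) + 2) ^ A ≤
        c * (((k + 2) ^ A : ℕ) : ℝ) ^ (1 / A : ℝ) / (((k + 2) ^ A : ℕ) : ℝ) := by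
      have e1 : (((k + 2) ^ A : ℕ) : ℝ) = ((k : ℝ) + 2) ^ A := by push_cast; ring
      rw [e1]
      refine div_le_div_of_nonneg_right ?_ (by positivity)
      have e2 : (1 : ℝ) ≤ (((k : ℝ) + 2) ^ A) ^ (1 / A : ℝ) := by
        refine Real.one_le_rpow (one_le_pow₀ ?_) (by positivity)
        have : (0 : ℝ) ≤ k := Nat.cast_nonneg k
        linarith
      nlinarith
    refine h2.trans (h1.trans ?_)
    rw [P_eq]
    refine measureReal_mono ?_ (measure_ne_top _ _)
    intro ω hω x hx
    exact finite_of_empty hkn ω hω x hx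
  · intro k hk
    rw [P_eq, pc_eq]
    refine (h4 k).trans (measureReal_mono ?_ (measure_ne_top _ _))
    rintro ω ⟨hfin, x, hx, hxc⟩
    exact tail_of hk ω x hx hfin hxc
  · rw [P_eq, pc_eq]
    filter_upwards [h5] with ω hω
    obtain ⟨n0, hn0⟩ := hω
    refine ⟨n0, fun n hn k hk => ?_⟩
    obtain ⟨z, hz, m, hkm, hmn, hL⟩ := hn0 n hn k hk
    refine ⟨z, by rw [box_eq]; exact hz, fun x hx y hy => ?_⟩
    rw [sub_mem] at hx ⊢
    exact Pool.Agent.Y990.OA.hole_stay hkm hmn hL hx (cluster_sub ω _ x hy)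

end

end Pool.Agent.Results.MP_e13933_pr.PolynomialHoles
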